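import Mathlib
import Pool.Agent.Lib.MP_1ea763_an.Main

open MeasureTheory Filter
open scoped ENNReal Topology

namespace Pool.Agent.Results.MP_1ea763_an.Meagre

/-- `lam 0, lam 1, …` is an `L^p`-Khintchin sequence: for every `f ∈ L^p(ℝ/ℤ)` the averages
`(1/N) ∑_{n<N} f (lam n • x)` converge to `∫ f` for almost every `x`. -/
def IsKhintchin (p : ℝ≥0∞) (lam : ℕ → ℕ) : Prop :=
  ∀ f : UnitAddCircle → ℝ, MemLp f p volume →
    ∀ᵐ x : UnitAddCircle, Tendsto (fun N : ℕ => (1 / (N : ℝ)) * ∑ n ∈ Finset.range N, f (lam n • x))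
      atTop (𝓝 (∫ y, f y))

/-- For every `p ∈ [1, ∞]`, the set of `ω ∈ {2,3,…}^ℕ` whose partial products form an
`L^p`-Khintchin sequence is meagre. The case `p = 1` is the negated form of Q1. -/
theorem result (p : ℝ≥0∞) (_hp : 1 ≤ p) :
    IsMeagre {ω : ℕ → {k : ℕ // 2 ≤ k} |
      IsKhintchin p (fun n => ∏ i ∈ Finset.range (n + 1), (ω i : ℕ))} :=
  Pool.Agent.Lib.MP_1ea763_an.main p

end Pool.Agent.Results.MP_1ea763_an.Meagre
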